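import Pool.Agent.H5.BP.Basic
import Pool.Agent.H95.BP.Fac

/-!
# Project BP, module D (assembly): uniform smallness of the masses away from `A`
-/

set_option autoImplicit false

namespace Pool.Agent.H50.BP

open Complex Metric Set Filter Topology Pool.Agent.H5.BP

/-- comparison of circle averages off a finite set -/
theorem circleAverage_mono_off {f₁ f₂ : ℂ → ℝ} {R : ℝ} (hR : 0 < R) {F : Set ℂ} (hF : F.Finite)
    (h₁ : CircleIntegrable f₁ 0 R) (h₂ : CircleIntegrable f₂ 0 R)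
    (h : ∀ x, ‖x‖ = R → x ∉ F → f₁ x ≤ f₂ x) :
    Real.circleAverage f₁ 0 R ≤ Real.circleAverage f₂ 0 R := by
  classical
  let f₁' : ℂ → ℝ := fun x => if x ∈ F then f₂ x else f₁ x
  have he : f₁' =ᶠ[codiscreteWithin (sphere 0 |R|)] f₁ := by
    filter_upwards [compl_finite_mem_codiscreteWithin hF] with x hx
    simp only [f₁']
    rw [if_neg hx]
  rw [← Real.circleAverage_congr_codiscreteWithin he hR.ne']
  refine Real.circleAverage_mono (h₁.congr_codiscreteWithin he.symm) h₂ ?_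
  intro x hx
  have hx' : ‖x‖ = R := by simpa [abs_of_pos hR] using hx
  simp only [f₁']
  split_ifs with h1
  · exact le_rfl
  · exact h x hx' h1

/-- the fibres are finite -/
theorem fiber_finite {f : ℂ → ℂ} (hf : FB f) (c : ℂ) : {z : ℂ | ‖z‖ ≤ 1 ∧ f z = c}.Finite := by
  by_contra hinf
  have h1 : {z : ℂ | ‖z‖ ≤ 1 ∧ f z = c} ⊆ closedBall (0 : ℂ) 1 := fun z hz => by
    simpa using hz.1
  obtain ⟨z, hz, hacc⟩ := Set.Infinite.exists_accPt_of_subset_isCompact hinf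
    (isCompact_closedBall (0 : ℂ) 1) h1
  have h2 : AnalyticOnNhd ℂ (fun z => f z - c) (closedBall 0 1) := fun w hw =>
    (hf.an w hw).sub analyticAt_const
  have h3 : ∃ᶠ w in 𝓝[≠] z, f w - c = 0 := by
    rw [accPt_iff_frequently_nhdsNE] at hacc
    exact hacc.mono fun w hw => sub_eq_zero.2 hw.2
  have h4 := h2.eqOn_zero_of_preconnected_of_frequently_eq_zero
    (convex_closedBall (0 : ℂ) 1).isPreconnected hz h3
  exact hf.not_const c fun w hw => sub_eq_zero.1 (h4 (by simpa using hw.le))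

theorem analyticAt_tau {c z : ℂ} (hc : ‖c‖ < 1) (hz : ‖z‖ ≤ 1) : AnalyticAt ℂ (tau c) z := by
  unfold tau
  refine AnalyticAt.div (by fun_prop) (by fun_prop) (den_ne hc hz)

theorem integrable_log {f : ℂ → ℂ} (hf : FB f) {c : ℂ} (hc : ‖c‖ < 1) {s : ℝ} (hs : 0 < s)
    (hs1 : s < 1) : CircleIntegrable (fun z => -Real.log ‖tau c (f z)‖) 0 s := by
  have h1 : CircleIntegrable (fun z => Real.log ‖tau c (f z)‖) 0 s := by
    refine MeromorphicOn.circleIntegrable_log_norm (f := fun z => tau c (f z)) ?_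
    intro z hz
    have hz' : ‖z‖ = s := by simpa [abs_of_pos hs] using hz
    have h2 : AnalyticAt ℂ (tau c ∘ f) z :=
      (analyticAt_tau hc (hf.norm_le_one (by linarith))).comp (hf.an z (by simp; linarith))
    exact h2.meromorphicAt
  exact h1.neg

/-- `1 - |τ_w x|² = (1 - |x|²)(1 - |w|²)/|1 - w̄ x|²` -/
theorem one_sub_sq {w x : ℂ} (hw : ‖w‖ < 1) (hx : ‖x‖ < 1) :
    (1 - ‖tau w x‖ ^ 2) * ‖1 - (starRingEnd ℂ) w * x‖ ^ 2 = (1 - ‖x‖ ^ 2) * (1 - ‖w‖ ^ 2) := by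
  have h1 := Pool.Agent.H95.BP.normSq_id w x
  simp only [normSq_eq_norm_sq] at h1
  have h2 : ‖1 - (starRingEnd ℂ) w * x‖ ≠ 0 := norm_ne_zero_iff.2 (den_ne hw hx.le)
  rw [← h1]
  unfold tau
  rw [norm_div, div_pow, sub_mul, one_mul, div_mul_cancel₀ _ (pow_ne_zero 2 h2)]

/-- near the circle -/
theorem near_circle {R e : ℝ} (hR : R < 1) (he : 0 < e) : ∃ R₁ : ℝ, R₁ < 1 ∧ ∀ w x : ℂ, ‖w‖ ≤ R →
    R₁ ≤ ‖x‖ → ‖x‖ < 1 → -Real.log ‖tau w x‖ ≤ e := by
  have hE : 0 < 1 - Real.exp (-e) := by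
    have : Real.exp (-e) < 1 := Real.exp_lt_one_iff.2 (by linarith)
    linarith
  refine ⟨1 - (1 - Real.exp (-e)) * (1 - R) ^ 2 / 2, ?_, ?_⟩
  · have : 0 < (1 - Real.exp (-e)) * (1 - R) ^ 2 / 2 := by
      have : 0 < (1 - R) ^ 2 := by nlinarith
      positivity
    linarith
  · intro w x hw hx hx1
    have hw1 : ‖w‖ < 1 := lt_of_le_of_lt hw hR
    have h1 := one_sub_sq hw1 hx1
    have h2 : 1 - R ≤ ‖1 - (starRingEnd ℂ) w * x‖ := by
      have h3 : ‖(1 : ℂ)‖ - ‖(starRingEnd ℂ) w * x‖ ≤ ‖1 - (starRingEnd ℂ) w * x‖ :=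
        norm_sub_norm_le _ _
      rw [norm_one, norm_mul, RCLike.norm_conj] at h3
      have h4 : ‖w‖ * ‖x‖ ≤ R * 1 := mul_le_mul hw hx1.le (norm_nonneg _)
        ((norm_nonneg w).trans hw)
      linarith
    have h3 : (1 - R) ^ 2 ≤ ‖1 - (starRingEnd ℂ) w * x‖ ^ 2 := by
      apply pow_le_pow_left₀ (by linarith) h2
    have ht1 : ‖tau w x‖ < 1 := norm_tau_lt hw1 hx1
    have ht0 : 0 ≤ ‖tau w x‖ := norm_nonneg _
    have h4 : 0 ≤ 1 - ‖tau w x‖ ^ 2 := by nlinarith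
    have h5 : (1 - ‖tau w x‖ ^ 2) * (1 - R) ^ 2 ≤ 2 * (1 - ‖x‖) := by
      calc (1 - ‖tau w x‖ ^ 2) * (1 - R) ^ 2 ≤
          (1 - ‖tau w x‖ ^ 2) * ‖1 - (starRingEnd ℂ) w * x‖ ^ 2 :=
            mul_le_mul_of_nonneg_left h3 h4
        _ = (1 - ‖x‖ ^ 2) * (1 - ‖w‖ ^ 2) := h1
        _ ≤ (1 - ‖x‖ ^ 2) * 1 := by
            apply mul_le_mul_of_nonneg_left
            · nlinarith [norm_nonneg w]
            · nlinarith [norm_nonneg x]
        _ ≤ 2 * (1 - ‖x‖) := by nlinarith [norm_nonneg x]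
    have h6 : 2 * (1 - ‖x‖) ≤ (1 - Real.exp (-e)) * (1 - R) ^ 2 := by linarith
    have h7 : 1 - ‖tau w x‖ ^ 2 ≤ 1 - Real.exp (-e) := by
      have : 0 < (1 - R) ^ 2 := by nlinarith
      exact le_of_mul_le_mul_right (h5.trans h6) this
    have h8 : Real.exp (-e) ≤ ‖tau w x‖ := by nlinarith
    have h9 : -e ≤ Real.log ‖tau w x‖ := by
      rw [Real.le_log_iff_exp_le ((Real.exp_pos _).trans_le h8)]
      exact h8
    linarith

/-- Schwarz-Pick for an inverse branch. -/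
theorem inverse_branch {f : ℂ → ℂ} (hf : FB f) {z : ℂ} (hz : ‖z‖ < 1) {κ : ℝ} (hκ : 0 < κ)
    (h : ∃ g : ℂ → ℂ, DifferentiableOn ℂ g (ball (f z) κ) ∧
      (∀ x ∈ ball (f z) κ, ‖g x‖ < 1 ∧ f (g x) = x) ∧ g (f z) = z) :
    κ ≤ (1 - ‖z‖ ^ 2) * ‖deriv f z‖ := by
  obtain ⟨g, hg, hg1, hg2⟩ := h
  have hmem : f z ∈ ball (f z) κ := mem_ball_self hκ
  have h3 : HasDerivAt g (deriv g (f z)) (f z) :=
    (hg.differentiableAt (isOpen_ball.mem_nhds hmem)).hasDerivAt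
  have h4 : HasDerivAt f (deriv f z) (g (f z)) := by
    rw [hg2]
    exact (hf.differentiableAt hz.le).hasDerivAt
  have h5 : HasDerivAt (f ∘ g) (deriv f z * deriv g (f z)) (f z) := h4.comp _ h3
  have h6 : HasDerivAt (f ∘ g) 1 (f z) := by
    refine (hasDerivAt_id (f z)).congr_of_eventuallyEq ?_
    filter_upwards [isOpen_ball.mem_nhds hmem] with x hx
    exact (hg1 x hx).2
  have h7 : deriv f z * deriv g (f z) = 1 := h5.unique h6
  -- Schwarz for `τ_z ∘ g`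
  have h8 : DifferentiableOn ℂ (tau z ∘ g) (ball (f z) κ) := by
    intro x hx
    have h9 := (hasDerivAt_tau hz (hg1 x hx).1.le).differentiableAt
    exact (h9.comp x (hg.differentiableAt (isOpen_ball.mem_nhds hx))).differentiableWithinAt
  have h10 : (tau z ∘ g) (f z) = 0 := by
    simp [Function.comp, hg2, tau]
  have h11 : MapsTo (tau z ∘ g) (ball (f z) κ) (closedBall ((tau z ∘ g) (f z)) 1) := by
    intro x hx
    rw [h10, mem_closedBall_zero_iff]
    exact (norm_tau_lt hz (hg1 x hx).1).le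
  have h12 := Complex.norm_deriv_le_div_of_mapsTo_ball h8 h11 hκ
  have h13 : HasDerivAt (tau z) ((1 - (starRingEnd ℂ) z * z) / (1 - (starRingEnd ℂ) z * z) ^ 2)
      (g (f z)) := by
    rw [hg2]
    exact hasDerivAt_tau hz hz.le
  have h14 := (h13.comp (f z) h3).deriv
  have hden : 1 - (starRingEnd ℂ) z * z ≠ 0 := den_ne hz hz.le
  have h15 : (1 - (starRingEnd ℂ) z * z) = ((1 - ‖z‖ ^ 2 : ℝ) : ℂ) := by
    have := Complex.conj_mul' z
    rw [this]
    push_cast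
    ring
  have hpos : 0 < 1 - ‖z‖ ^ 2 := by nlinarith [norm_nonneg z]
  rw [h14, norm_mul] at h12
  have h16 : ‖(1 - (starRingEnd ℂ) z * z) / (1 - (starRingEnd ℂ) z * z) ^ 2‖ =
      1 / (1 - ‖z‖ ^ 2) := by
    rw [pow_two, div_mul_cancel_left₀ hden, norm_inv, h15, Complex.norm_real, Real.norm_eq_abs,
      abs_of_pos hpos, one_div]
  rw [h16] at h12
  have h17 : ‖deriv f z‖ * ‖deriv g (f z)‖ = 1 := by rw [← norm_mul, h7, norm_one]
  have hD : 0 ≤ ‖deriv f z‖ := norm_nonneg _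
  have h18 : ‖deriv g (f z)‖ * κ ≤ 1 - ‖z‖ ^ 2 := by
    rw [le_div_iff₀ hκ] at h12
    have h19 : 1 / (1 - ‖z‖ ^ 2) * ‖deriv g (f z)‖ * κ = (‖deriv g (f z)‖ * κ) / (1 - ‖z‖ ^ 2) := by
      ring
    rw [h19, div_le_one hpos] at h12
    exact h12
  calc κ = (‖deriv f z‖ * ‖deriv g (f z)‖) * κ := by rw [h17, one_mul]
    _ = ‖deriv f z‖ * (‖deriv g (f z)‖ * κ) := by ring
    _ ≤ ‖deriv f z‖ * (1 - ‖z‖ ^ 2) := mul_le_mul_of_nonneg_left h18 hD
    _ = _ := by ring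

/-- The pointwise bound. -/
theorem pointwise {A : Set ℂ} (hA : A.Finite) {ρ : ℝ} {ψ : ℕ → ℂ → ℂ}
    (hA1 : ∀ z ∈ A, ρ ≤ ‖z‖ ∧ ‖z‖ < 1) (hψ : Resolves A ρ ψ) {R C e D : ℝ} (hR : R < 1) (hC : 0 < C)
    (he : 0 < e) (hD : 0 < D) : ∃ κ : ℝ, 0 < κ ∧ ∀ (m : ℕ) (w z : ℂ), ‖w‖ ≤ R → ‖z‖ < 1 →
      ψ m z ∉ A →
      min (-Real.log ‖tau w (ψ m z)‖) C ≤ e + C / D * ∑ c ∈ hA.toFinset, -Real.log ‖tau c (ψ m z)‖ +
        C / κ ^ 2 * ((1 - ‖z‖ ^ 2) * ‖deriv (ψ m) z‖) ^ 2 := by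
  obtain ⟨R₁, hR₁, hnear⟩ := near_circle hR he
  -- a bound for the moduli of the points of `A`
  obtain ⟨a, ha, hAa⟩ : ∃ a : ℝ, a < 1 ∧ ∀ c ∈ A, ‖c‖ ≤ a := by
    rcases A.eq_empty_or_nonempty with h | h
    · exact ⟨0, by norm_num, by simp [h]⟩
    · obtain ⟨c, hc, hmax⟩ := hA.exists_maximalFor (fun c => ‖c‖) A h
      refine ⟨‖c‖, (hA1 c hc).2, fun d hd => ?_⟩
      rcases le_total ‖d‖ ‖c‖ with h1 | h1
      · exact h1
      · exact hmax hd h1
  have hexp : 0 < Real.exp (-D) := Real.exp_pos _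
  refine ⟨min (Real.exp (-D) * (1 - a)) (1 - R₁), lt_min (mul_pos hexp (by linarith)) (by linarith),
    ?_⟩
  set κ : ℝ := min (Real.exp (-D) * (1 - a)) (1 - R₁) with hκd
  have hκ : 0 < κ := lt_min (mul_pos hexp (by linarith)) (by linarith)
  intro m w z hw hz hzA
  have hx1 : ‖ψ m z‖ < 1 := (hψ.fb m).norm_lt_one hz
  have hterm : ∀ c ∈ hA.toFinset, 0 ≤ -Real.log ‖tau c (ψ m z)‖ := by
    intro c hc
    have hcA : c ∈ A := by simpa using hc
    have h1 : ‖tau c (ψ m z)‖ < 1 := norm_tau_lt (hA1 c hcA).2 hx1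
    have := Real.log_nonpos (norm_nonneg _) h1.le
    linarith
  have hsum : 0 ≤ C / D * ∑ c ∈ hA.toFinset, -Real.log ‖tau c (ψ m z)‖ :=
    mul_nonneg (div_nonneg hC.le hD.le) (Finset.sum_nonneg hterm)
  have hlast : 0 ≤ C / κ ^ 2 * ((1 - ‖z‖ ^ 2) * ‖deriv (ψ m) z‖) ^ 2 := by positivity
  by_cases h1 : R₁ ≤ ‖ψ m z‖
  · have h2 := hnear w (ψ m z) hw h1 hx1
    have h3 := min_le_left (-Real.log ‖tau w (ψ m z)‖) C
    linarith
  by_cases h2 : ∃ c ∈ A, ‖tau c (ψ m z)‖ < Real.exp (-D)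
  · obtain ⟨c, hc, hc2⟩ := h2
    have hne : 0 < ‖tau c (ψ m z)‖ := by
      rw [norm_pos_iff]
      unfold tau
      refine div_ne_zero (sub_ne_zero.2 ?_) (den_ne (hA1 c hc).2 hx1.le)
      rintro rfl
      exact hzA hc
    have h3 : D ≤ -Real.log ‖tau c (ψ m z)‖ := by
      have h4 := Real.log_lt_log hne hc2
      rw [Real.log_exp] at h4
      linarith
    have h5 : -Real.log ‖tau c (ψ m z)‖ ≤ ∑ c ∈ hA.toFinset, -Real.log ‖tau c (ψ m z)‖ :=
      Finset.single_le_sum (f := fun c => -Real.log ‖tau c (ψ m z)‖) hterm (by simpa using hc)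
    have h6 : C ≤ C / D * ∑ c ∈ hA.toFinset, -Real.log ‖tau c (ψ m z)‖ := by
      calc C = C / D * D := by field_simp
        _ ≤ _ := mul_le_mul_of_nonneg_left (h3.trans h5) (div_nonneg hC.le hD.le)
    have h7 := min_le_right (-Real.log ‖tau w (ψ m z)‖) C
    linarith
  · push Not at h1 h2
    have hb : ∀ x ∈ ball (ψ m z) κ, ‖x‖ < 1 ∧ x ∉ A := by
      intro x hx
      rw [mem_ball, dist_eq_norm] at hx
      have hx2 : ‖x‖ ≤ ‖x - ψ m z‖ + ‖ψ m z‖ := by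
        calc ‖x‖ = ‖(x - ψ m z) + ψ m z‖ := by ring_nf
          _ ≤ _ := norm_add_le _ _
      have hx3 : κ ≤ 1 - R₁ := min_le_right _ _
      refine ⟨by linarith, fun hxA => ?_⟩
      have h3 := h2 x hxA
      have hxx : ‖x‖ < 1 := (hA1 x hxA).2
      have hden : 1 - a ≤ ‖1 - (starRingEnd ℂ) x * ψ m z‖ := by
        have h3 : ‖(1 : ℂ)‖ - ‖(starRingEnd ℂ) x * ψ m z‖ ≤ ‖1 - (starRingEnd ℂ) x * ψ m z‖ :=
          norm_sub_norm_le _ _
        rw [norm_one, norm_mul, RCLike.norm_conj] at h3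
        have h4 : ‖x‖ * ‖ψ m z‖ ≤ a * 1 := mul_le_mul (hAa x hxA) hx1.le (norm_nonneg _)
          ((norm_nonneg x).trans (hAa x hxA))
        linarith
      have hdpos : 0 < ‖1 - (starRingEnd ℂ) x * ψ m z‖ := by linarith
      unfold tau at h3
      rw [norm_div, le_div_iff₀ hdpos] at h3
      have h4 : Real.exp (-D) * (1 - a) ≤ ‖ψ m z - x‖ :=
        (mul_le_mul_of_nonneg_left hden hexp.le).trans h3
      have h5 : κ ≤ Real.exp (-D) * (1 - a) := min_le_left _ _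
      rw [norm_sub_rev] at h4
      linarith
    have h3 := inverse_branch (hψ.fb m) hz hκ (hψ.inv m (ψ m z) κ
      (fun x hx => by simpa using (hb x hx).1) (fun x hx => (hb x hx).2) z hz (mem_ball_self hκ))
    have h4 : C ≤ C / κ ^ 2 * ((1 - ‖z‖ ^ 2) * ‖deriv (ψ m) z‖) ^ 2 := by
      calc C = C / κ ^ 2 * κ ^ 2 := by field_simp
        _ ≤ _ := mul_le_mul_of_nonneg_left (pow_le_pow_left₀ hκ.le h3 2) (by positivity)
    have h7 := min_le_right (-Real.log ‖tau w (ψ m z)‖) C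
    linarith

/-- D (assembly). -/
theorem t_unif (h_rad : S_rad) (h_harn : S_harn) (h_trunc : S_trunc) (h_U : S_U) : S_unif := by
  intro A ρ ψ hA hρ hρ1 hA1 hψ K hK hKA ε hε
  -- the radius `t`
  have hopen : IsOpen (ball (0 : ℂ) 1 ∩ Aᶜ) := isOpen_ball.inter hA.isClosed.isOpen_compl
  obtain ⟨t, ht, htK⟩ := hK.exists_thickening_subset_open hopen
    (fun w hw => ⟨by simpa using (hKA w hw).1, (hKA w hw).2⟩)
  have hball : ∀ w ∈ K, ∀ x ∈ ball w t, ‖x‖ < 1 ∧ x ∉ A := by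
    intro w hw x hx
    have h1 : x ∈ thickening t K := mem_thickening_iff.2 ⟨w, hw, by simpa using hx⟩
    exact ⟨by simpa using (htK h1).1, (htK h1).2⟩
  -- a bound `R` for `K`
  obtain ⟨R, hR, hKR⟩ : ∃ R : ℝ, R < 1 ∧ ∀ w ∈ K, ‖w‖ ≤ R := by
    rcases K.eq_empty_or_nonempty with h | h
    · exact ⟨0, by norm_num, by simp [h]⟩
    · obtain ⟨w, hw, hmax⟩ := hK.exists_isMaxOn h continuous_norm.continuousOn
      exact ⟨‖w‖, (hKA w hw).1, fun x hx => hmax hx⟩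
  set δ : ℝ := min (t / 4) (1 / 2) with hδd
  have hδ : 0 < δ := lt_min (by linarith) (by norm_num)
  have hδ1 : δ < 1 := lt_of_le_of_lt (min_le_right _ _) (by norm_num)
  set C : ℝ := -Real.log δ with hCd
  have hC : 0 < C := by
    have := Real.log_neg hδ hδ1
    linarith
  -- the masses at `A`
  set M : ℝ := ∑ c ∈ hA.toFinset, -Real.log ‖c‖ with hMd
  have hM : 0 ≤ M := by
    refine Finset.sum_nonneg fun c hc => ?_
    have hcA : c ∈ A := by simpa using hc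
    have := Real.log_nonpos (norm_nonneg c) (hA1 c hcA).2.le
    linarith
  set D : ℝ := 18 * C * (M + 1) / ε with hDd
  have hD : 0 < D := by positivity
  obtain ⟨κ, hκ, hpt⟩ := pointwise hA hA1 hψ hR hC (show 0 < ε / 18 by linarith) hD
  obtain ⟨r₀, hr₀, hr₁, hrad⟩ := h_rad (κ ^ 2 * ε / (18 * C)) (by positivity)
  refine ⟨r₀, by linarith, hr₁, fun m w hw => ?_⟩
  have hfb := hψ.fb m
  obtain ⟨s, hs, hs1, hsη⟩ := hrad (ψ m) hfb.differentiableOn (fun z hz => hfb.norm_lt_one hz)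
  have hs0 : 0 < s := by linarith
  have hs2 : s < 1 := by linarith
  have hw1 : ‖w‖ < 1 := (hKA w hw).1
  have hmono := (h_U (ψ m) w hfb hw1).1 s r₀ hs0 hs1 hr₁
  refine hmono.trans ?_
  have htr := h_trunc (ψ m) w s δ hfb hw1 hs0 hs2 hδ hδ1 ?_
  swap
  · intro w' hw' hww
    refine h_harn A ρ ψ hψ m w w' t s ht (fun x hx => by simpa using (hball w hw x hx).1)
      (fun x hx => (hball w hw x hx).2) ?_ hs hs2
    have hden := den_ne hw1 hw'.le
    unfold tau at hww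
    rw [norm_div, div_eq_iff (norm_ne_zero_iff.2 hden)] at hww
    rw [hww]
    have h1 : ‖1 - (starRingEnd ℂ) w * w'‖ ≤ 2 := by
      calc ‖1 - (starRingEnd ℂ) w * w'‖ ≤ ‖(1 : ℂ)‖ + ‖(starRingEnd ℂ) w * w'‖ := norm_sub_le _ _
        _ ≤ 1 + 1 * 1 := by
            rw [norm_one, norm_mul, RCLike.norm_conj]
            gcongr
        _ = 2 := by norm_num
    calc δ * ‖1 - (starRingEnd ℂ) w * w'‖ ≤ t / 4 * 2 :=
          mul_le_mul (min_le_left _ _) h1 (norm_nonneg _) (by linarith)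
      _ = t / 2 := by ring
  refine htr.trans ?_
  -- the average of the truncated function
  have hAf : (⋃ c ∈ A, {z : ℂ | ‖z‖ ≤ 1 ∧ ψ m z = c}).Finite :=
    hA.biUnion fun c _ => fiber_finite hfb c
  have hint1 : CircleIntegrable (fun z => -Real.log ‖tau w (ψ m z)‖) 0 s :=
    integrable_log hfb hw1 hs0 hs2
  have hintmin : CircleIntegrable (fun z => min (-Real.log ‖tau w (ψ m z)‖) C) 0 s := by
    have h2 : CircleIntegrable (fun _ : ℂ => C) 0 s := circleIntegrable_const _ _ _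
    exact ⟨MeasureTheory.Integrable.inf hint1.1 h2.1, MeasureTheory.Integrable.inf hint1.2 h2.2⟩
  have hints : ∀ c ∈ hA.toFinset, CircleIntegrable (fun z => -Real.log ‖tau c (ψ m z)‖) 0 s :=
    fun c hc => integrable_log hfb (hA1 c (by simpa using hc)).2 hs0 hs2
  have hintsum : CircleIntegrable (fun z => ∑ c ∈ hA.toFinset, -Real.log ‖tau c (ψ m z)‖) 0 s := by
    have := CircleIntegrable.sum hA.toFinset hints
    convert this using 1
    funext z
    simp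
  have hcont : ContinuousOn (fun z => ((1 - s ^ 2) * ‖deriv (ψ m) z‖) ^ 2) (sphere (0 : ℂ) s) := by
    have h1 : ContinuousOn (deriv (ψ m)) (sphere (0 : ℂ) s) := by
      intro z hz
      have hz' : ‖z‖ = s := by simpa using hz
      exact (hfb.an z (by simp; linarith)).deriv.continuousAt.continuousWithinAt
    exact (h1.norm.const_smul (1 - s ^ 2)).pow 2
  have hint3 : CircleIntegrable (fun z => ((1 - s ^ 2) * ‖deriv (ψ m) z‖) ^ 2) 0 s :=
    hcont.circleIntegrable hs0.le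
  have hintR : CircleIntegrable (fun z => ε / 18 +
      C / D * ∑ c ∈ hA.toFinset, -Real.log ‖tau c (ψ m z)‖ +
        C / κ ^ 2 * ((1 - s ^ 2) * ‖deriv (ψ m) z‖) ^ 2) 0 s := by
    have h1 : CircleIntegrable (fun _ : ℂ => ε / 18) 0 s := circleIntegrable_const _ _ _
    have h2 : CircleIntegrable (fun z => C / D *
        ∑ c ∈ hA.toFinset, -Real.log ‖tau c (ψ m z)‖) 0 s := hintsum.const_mul _
    have h3 : CircleIntegrable (fun z => C / κ ^ 2 * ((1 - s ^ 2) * ‖deriv (ψ m) z‖) ^ 2) 0 s :=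
      hint3.const_mul _
    exact (h1.add h2).add h3
  have hav := circleAverage_mono_off hs0 hAf hintmin hintR (by
    intro z hz hzF
    have hz1 : ‖z‖ < 1 := by linarith
    have hzA : ψ m z ∉ A := by
      intro hcon
      apply hzF
      simp only [Set.mem_iUnion]
      exact ⟨ψ m z, hcon, hz1.le, rfl⟩
    have := hpt m w z (hKR w hw) hz1 hzA
    rw [hz] at this
    exact this)
  have hval : Real.circleAverage (fun z => ε / 18 +
      C / D * ∑ c ∈ hA.toFinset, -Real.log ‖tau c (ψ m z)‖ +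
        C / κ ^ 2 * ((1 - s ^ 2) * ‖deriv (ψ m) z‖) ^ 2) 0 s =
      ε / 18 + C / D * ∑ c ∈ hA.toFinset, U s c (ψ m) + C / κ ^ 2 *
        Real.circleAverage (fun z => ((1 - s ^ 2) * ‖deriv (ψ m) z‖) ^ 2) 0 s := by
    have h1 : CircleIntegrable (fun _ : ℂ => ε / 18) 0 s := circleIntegrable_const _ _ _
    have h2 : CircleIntegrable (fun z => C / D *
        ∑ c ∈ hA.toFinset, -Real.log ‖tau c (ψ m z)‖) 0 s := hintsum.const_mul _
    have h3 : CircleIntegrable (fun z => C / κ ^ 2 * ((1 - s ^ 2) * ‖deriv (ψ m) z‖) ^ 2) 0 s :=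
      hint3.const_mul _
    have h12 : CircleIntegrable (fun z => ε / 18 + C / D *
        ∑ c ∈ hA.toFinset, -Real.log ‖tau c (ψ m z)‖) 0 s := h1.add h2
    rw [Real.circleAverage_fun_add h12 h3, Real.circleAverage_fun_add h1 h2,
      Real.circleAverage_const]
    have h4 : Real.circleAverage (fun z => C / D *
        ∑ c ∈ hA.toFinset, -Real.log ‖tau c (ψ m z)‖) 0 s =
        C / D * ∑ c ∈ hA.toFinset, U s c (ψ m) := by
      have := Real.circleAverage_fun_smul (a := C / D)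
        (f := fun z => ∑ c ∈ hA.toFinset, -Real.log ‖tau c (ψ m z)‖) (c := 0) (R := s)
      simp only [smul_eq_mul] at this
      rw [this, Real.circleAverage_fun_sum hints]
      rfl
    have h5 : Real.circleAverage (fun z => C / κ ^ 2 * ((1 - s ^ 2) * ‖deriv (ψ m) z‖) ^ 2) 0 s =
        C / κ ^ 2 * Real.circleAverage (fun z => ((1 - s ^ 2) * ‖deriv (ψ m) z‖) ^ 2) 0 s := by
      have := Real.circleAverage_fun_smul (a := C / κ ^ 2)
        (f := fun z => ((1 - s ^ 2) * ‖deriv (ψ m) z‖) ^ 2) (c := 0) (R := s)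
      simpa only [smul_eq_mul] using this
    rw [h4, h5]
  have hsumU : ∑ c ∈ hA.toFinset, U s c (ψ m) ≤ M := by
    refine Finset.sum_le_sum fun c hc => ?_
    have hcA : c ∈ A := by simpa using hc
    have hc0 : c ≠ 0 := by
      rintro rfl
      have := (hA1 0 hcA).1
      simp at this
      linarith
    exact (h_U (ψ m) c hfb (hA1 c hcA).2).2.2 hc0 s hs0 hs2
  have hb1 : C / D * ∑ c ∈ hA.toFinset, U s c (ψ m) ≤ ε / 18 := by
    calc C / D * ∑ c ∈ hA.toFinset, U s c (ψ m) ≤ C / D * (M + 1) :=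
          mul_le_mul_of_nonneg_left (by linarith) (div_nonneg hC.le hD.le)
      _ = ε / 18 := by
          rw [hDd]
          field_simp
  have hb2 : C / κ ^ 2 * Real.circleAverage (fun z => ((1 - s ^ 2) * ‖deriv (ψ m) z‖) ^ 2) 0 s ≤
      ε / 18 := by
    calc C / κ ^ 2 * Real.circleAverage (fun z => ((1 - s ^ 2) * ‖deriv (ψ m) z‖) ^ 2) 0 s ≤
          C / κ ^ 2 * (κ ^ 2 * ε / (18 * C)) := mul_le_mul_of_nonneg_left hsη (by positivity)
      _ = ε / 18 := by field_simp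
  rw [hval] at hav
  linarith

end Pool.Agent.H50.BP
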